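import Mathlib

namespace Pool.Agent.Results.MP_63ed06_co.TopSet

open Finset

/-- A chain in `[n]`: a nonempty finite set of subsets, totally ordered by inclusion. -/
def IsCh {n : ℕ} (C : Finset (Finset (Fin n))) : Prop :=
  C.Nonempty ∧ ∀ A ∈ C, ∀ B ∈ C, A ⊆ B ∨ B ⊆ A

/-- A `d`-intersecting family of chains. -/
def Intersecting {n : ℕ} (d : ℕ) (F : Finset (Finset (Finset (Fin n)))) : Prop :=
  (∀ C ∈ F, IsCh C) ∧ ∀ C ∈ F, ∀ C' ∈ F, d ≤ (C ∩ C').card

/-- An optimal `d`-intersecting family. -/
def Optimal {n : ℕ} (d : ℕ) (F : Finset (Finset (Finset (Fin n)))) : Prop :=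
  Intersecting d F ∧ ∀ G : Finset (Finset (Finset (Fin n))), Intersecting d G → G.card ≤ F.card

/-- The initial segment `X_j` with `j` elements. -/
def X (n j : ℕ) : Finset (Fin n) := univ.filter fun i => i.val < j

lemma mem_X {n j : ℕ} {i : Fin n} : i ∈ X n j ↔ i.val < j := by simp [X]

lemma X_inj {n i j : ℕ} (hi : i ≤ n) (hj : j ≤ n) (h : X n i = X n j) : i = j := by
  rcases lt_trichotomy i j with h' | h' | h'
  · have := (mem_X (n := n) (j := j) (i := ⟨i, by omega⟩)).2 h'
    rw [← h, mem_X] at this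
    simp at this
  · exact h'
  · have := (mem_X (n := n) (j := i) (i := ⟨j, by omega⟩)).2 h'
    rw [h, mem_X] at this
    simp at this

lemma X_top (n : ℕ) : X n n = univ := by ext i; simp [mem_X]

lemma not_optimal (n e : ℕ) (he : 1 ≤ e) (hn : e + 2 ≤ n) (F : Finset (Finset (Finset (Fin n))))
    (hF : Optimal (e + 1) F) : ¬ ∀ C ∈ F, ∀ j < e + 1, X n j ∈ C := by
  classical
  intro h
  let G : Finset (Finset (Finset (Fin n))) :=
    univ.filter fun C => IsCh C ∧ univ ∈ C ∧ ∀ j < e, X n j ∈ C
  have hG : Intersecting (e + 1) G := by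
    refine ⟨fun C hC => (mem_filter.1 hC).2.1, fun C hC C' hC' => ?_⟩
    obtain ⟨-, -, h1, h2⟩ := mem_filter.1 hC
    obtain ⟨-, -, h3, h4⟩ := mem_filter.1 hC'
    have hs : (insert n (range e)).image (X n) ⊆ C ∩ C' := by
      intro A hA
      obtain ⟨j, hj, rfl⟩ := mem_image.1 hA
      rcases mem_insert.1 hj with rfl | hj
      · rw [X_top]; exact mem_inter.2 ⟨h1, h3⟩
      · exact mem_inter.2 ⟨h2 j (mem_range.1 hj), h4 j (mem_range.1 hj)⟩
    refine le_trans (le_of_eq ?_) (card_le_card hs)
    rw [card_image_of_injOn, card_insert_of_notMem (by simp; omega), card_range]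
    intro i hi j hj hij
    simp only [coe_insert, coe_range, Set.mem_insert_iff, Set.mem_Iio] at hi hj
    exact X_inj (by omega) (by omega) hij
  have hne : X n e ≠ univ := fun h' => by
    have := X_inj (n := n) (i := e) (j := n) (by omega) le_rfl (h'.trans (X_top n).symm)
    omega
  let f : Finset (Finset (Fin n)) → Finset (Finset (Fin n)) :=
    fun C => if univ ∈ C then C else insert univ (C.erase (X n e))
  let Y : Finset (Fin n) := insert ⟨e, by omega⟩ (X n (e - 1))
  let C0 : Finset (Finset (Fin n)) := insert univ (insert Y ((range e).image (X n)))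
  have hC0 : C0 ∈ G := by
    refine mem_filter.2 ⟨mem_univ _, ⟨⟨univ, by simp [C0]⟩, ?_⟩, by simp [C0], fun j hj => ?_⟩
    · have hXY : ∀ j < e, X n j ⊆ Y := fun j hj x hx =>
        mem_insert_of_mem (mem_X.2 (by have := mem_X.1 hx; omega))
      intro A hA B hB
      simp only [C0, mem_insert, mem_image, mem_range] at hA hB
      rcases hA with rfl | rfl | ⟨i, hi, rfl⟩
      · exact Or.inr (subset_univ _)
      · rcases hB with rfl | rfl | ⟨j, hj, rfl⟩
        · exact Or.inl (subset_univ _)
        · exact Or.inl Subset.rfl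
        · exact Or.inr (hXY j hj)
      · rcases hB with rfl | rfl | ⟨j, hj, rfl⟩
        · exact Or.inl (subset_univ _)
        · exact Or.inl (hXY i hi)
        · rcases le_total i j with hij | hij
          · exact Or.inl fun x hx => mem_X.2 (by have := mem_X.1 hx; omega)
          · exact Or.inr fun x hx => mem_X.2 (by have := mem_X.1 hx; omega)
    · simp only [C0, mem_insert, mem_image, mem_range]
      exact Or.inr (Or.inr ⟨j, hj, rfl⟩)
  have hY : ∀ C ∈ F, Y ∉ C := by
    intro C hC hYC
    rcases (hF.1.1 C hC).2 Y hYC (X n e) (h C hC e (by omega)) with h1 | h1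
    · have := mem_X.1 (h1 (mem_insert_self _ _))
      simp at this
    · have := h1 ((mem_X (i := ⟨e - 1, by omega⟩)).2 (by simp; omega))
      simp only [Y, mem_insert, mem_X, Fin.mk.injEq] at this
      omega
  have hYu : Y ≠ univ := fun h' => by
    have : (⟨e + 1, by omega⟩ : Fin n) ∈ Y := h' ▸ mem_univ _
    simp only [Y, mem_insert, mem_X, Fin.mk.injEq] at this
    omega
  have hmap : ∀ C ∈ F, f C ∈ G.erase C0 := by
    intro C hC
    refine mem_erase.2 ⟨fun h' => ?_, mem_filter.2 ⟨mem_univ _, ?_⟩⟩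
    · have : Y ∈ f C := h' ▸ (by simp [C0])
      simp only [f] at this
      split_ifs at this
      · exact hY C hC this
      · rcases mem_insert.1 this with h1 | h1
        · exact hYu h1
        · exact hY C hC (mem_of_mem_erase h1)
    · simp only [f]
      split_ifs with hu
      · exact ⟨hF.1.1 C hC, hu, fun j hj => h C hC j (by omega)⟩
      · refine ⟨⟨⟨univ, by simp⟩, fun A hA B hB => ?_⟩, by simp, fun j hj => ?_⟩
        · rcases mem_insert.1 hA with rfl | hA
          · exact Or.inr (subset_univ _)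
          rcases mem_insert.1 hB with rfl | hB
          · exact Or.inl (subset_univ _)
          exact (hF.1.1 C hC).2 A (mem_of_mem_erase hA) B (mem_of_mem_erase hB)
        · refine mem_insert_of_mem (mem_erase.2 ⟨fun h' => ?_, h C hC j (by omega)⟩)
          have := X_inj (by omega) (by omega) h'
          omega
  have hinj : Set.InjOn f F := by
    intro C hC C' hC' hh
    have h1 := h C hC e (by omega)
    have h2 := h C' hC' e (by omega)
    simp only [f] at hh
    split_ifs at hh with u1 u2 u2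
    · exact hh
    · rw [hh] at h1; simp [hne] at h1
    · rw [← hh] at h2; simp [hne] at h2
    · have := congrArg (fun S => insert (X n e) (S.erase univ)) hh
      rwa [erase_insert (by simp [u1]), erase_insert (by simp [u2]), insert_erase h1,
        insert_erase h2] at this
  have h1 := card_le_card_of_injOn f hmap hinj
  have h2 := hF.2 G hG
  have h3 := card_erase_lt_of_mem hC0
  omega

theorem result : (∀ n d : ℕ, 2 ≤ d → d < n → ∀ F : Finset (Finset (Finset (Fin n))),
      Optimal d F → ¬ ∀ C ∈ F, ∀ j < d, X n j ∈ C) ∧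
    ¬ ∃ ε : ℝ, 0 < ε ∧ ε < 1 ∧ ∃ n₀ : ℕ, ∀ n ≥ n₀, ∀ d : ℕ, 1 ≤ d → (d : ℝ) ≤ n * (1 - ε) →
      ∃ F : Finset (Finset (Finset (Fin n))), Optimal d F ∧ ∀ C ∈ F, ∀ j < d, X n j ∈ C := by
  have key : ∀ n d : ℕ, 2 ≤ d → d < n → ∀ F : Finset (Finset (Finset (Fin n))),
      Optimal d F → ¬ ∀ C ∈ F, ∀ j < d, X n j ∈ C := by
    intro n d hd hn F hF
    obtain ⟨e, rfl⟩ : ∃ e, d = e + 1 := ⟨d - 1, by omega⟩
    exact not_optimal n e (by omega) (by omega) F hF
  refine ⟨key, ?_⟩
  rintro ⟨ε, -, h1, n₀, h⟩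
  obtain ⟨m, hm⟩ := exists_nat_ge (2 / (1 - ε))
  have hε : 0 < 1 - ε := by linarith
  obtain ⟨F, hF, hX⟩ := h (max (max n₀ m) 3) (le_trans (le_max_left _ _) (le_max_left _ _)) 2
    (by norm_num) (by
      have : (m : ℝ) ≤ (max (max n₀ m) 3 : ℕ) := by
        exact_mod_cast le_trans (le_max_right _ _) (le_max_left _ _)
      rw [div_le_iff₀ hε] at hm
      push_cast at *
      nlinarith)
  exact key _ 2 le_rfl (lt_of_lt_of_le (by norm_num) (le_max_right _ _)) F hF hX

end Pool.Agent.Results.MP_63ed06_co.TopSet
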